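import Pool.Agent.Helper61.PV.St

/-!
# Project PV, statement Nuc: numerical lemma for COR
-/

set_option autoImplicit false

namespace Pool.Agent.Helper19.PV

open Pool.Agent.Helper61.PV Finset

private theorem exK (c : ℝ) (η : ℝ) (hη : 0 < η) :
    ∃ K : ℝ, 1 ≤ K ∧ 16 / η * (4 + (c + Real.log K)) ≤ K := by
  have h1 : ∀ᶠ K : ℝ in Filter.atTop, ‖Real.log K‖ ≤ η / 32 * ‖(id K : ℝ)‖ :=
    (Real.isLittleO_log_id_atTop).def (by positivity)
  have h2 : ∀ᶠ K : ℝ in Filter.atTop, 2 * (16 / η * (4 + c)) ≤ K := Filter.eventually_ge_atTop _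
  have h3 : ∀ᶠ K : ℝ in Filter.atTop, (1 : ℝ) ≤ K := Filter.eventually_ge_atTop _
  obtain ⟨K, hK1, hK2, hK3⟩ := (h1.and (h2.and h3)).exists
  refine ⟨K, hK3, ?_⟩
  have h4 : Real.log K ≤ η / 32 * K := by
    have := le_trans (Real.le_norm_self _) hK1
    simpa [abs_of_nonneg (le_trans zero_le_one hK3)] using this
  have h5 : 16 / η * Real.log K ≤ K / 2 := by
    calc 16 / η * Real.log K ≤ 16 / η * (η / 32 * K) := by gcongr
      _ = K / 2 := by field_simp; ring
  nlinarith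

theorem hNuc : StNuc := by
  intro W D η hW hη
  obtain ⟨K, hK1, hK2⟩ := exK (Real.log (4 * W)) η hη
  have hW' : (1 : ℝ) ≤ W := by exact_mod_cast hW
  have hWK : (1 : ℝ) ≤ W * K := by nlinarith
  have hlogWK : Real.log (4 * W * K) = Real.log (4 * W) + Real.log K :=
    Real.log_mul (by positivity) (by positivity)
  rw [← hlogWK] at hK2
  obtain ⟨H₀, hH₀⟩ := Filter.eventually_atTop.1
    ((Real.tendsto_log_atTop.comp tendsto_natCast_atTop_atTop).eventually_ge_atTop (max 3 (D : ℝ)))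
  refine ⟨4 * W * K, H₀, by positivity, fun H hH d hd => ?_⟩
  have hL := hH₀ H hH
  simp only [Function.comp_apply] at hL
  set L : ℝ := Real.log H with hLdef
  have hL3 : 3 ≤ L := le_trans (le_max_left _ _) hL
  have hLD : (D : ℝ) ≤ L := le_trans (le_max_right _ _) hL
  have hd' : (1 : ℝ) ≤ d := by exact_mod_cast hd
  have hH1 : (1 : ℝ) ≤ H := by
    by_contra hc
    push Not at hc
    have : H = 0 := by
      have : H < 1 := by exact_mod_cast hc
      omega
    rw [hLdef, this] at hL3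
    simp at hL3
    linarith
  set ℓ : ℝ := Real.log (d + L) with hℓ
  have hℓ1 : 1 ≤ ℓ := by
    rw [hℓ, Real.le_log_iff_exp_le (by linarith)]
    have := Real.exp_one_lt_d9
    linarith
  have hℓ2 : ℓ ≤ d + L := by
    rw [hℓ]
    have := Real.log_le_sub_one_of_pos (show (0 : ℝ) < d + L by linarith)
    linarith
  set S : ℝ := Sz H d with hS
  have hSe : S = L + d * ℓ := rfl
  have hSd : d + L ≤ S := by rw [hSe]; nlinarith
  have hS2 : S ≤ (d + L) ^ 2 := by rw [hSe]; nlinarith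
  have hS0 : 0 < S := by linarith
  have hKS : 1 ≤ K * S := by nlinarith
  have hceil : ((⌈K * S⌉₊ : ℕ) : ℝ) ≤ 2 * (K * S) := by
    have := Nat.ceil_lt_add_one (show (0 : ℝ) ≤ K * S by linarith)
    linarith
  have hM : ((D + W * ⌈K * S⌉₊ : ℕ) : ℝ) ≤ 4 * W * K * S := by
    push_cast
    have h1 : (D : ℝ) ≤ W * K * S := by nlinarith
    have h2 : (W : ℝ) * ((⌈K * S⌉₊ : ℕ) : ℝ) ≤ W * (2 * (K * S)) := by gcongr
    nlinarith
  have hJ1 : 1 ≤ ⌈K * S⌉₊ := Nat.one_le_iff_ne_zero.2 (by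
    have := Nat.ceil_pos.2 (show (0 : ℝ) < K * S by linarith)
    omega)
  refine ⟨⌈K * S⌉₊, hJ1, hM, ?_⟩
  have hM1 : (1 : ℝ) ≤ ((D + W * ⌈K * S⌉₊ : ℕ) : ℝ) := by
    have : 1 ≤ D + W * ⌈K * S⌉₊ := by nlinarith
    exact_mod_cast this
  set M : ℝ := ((D + W * ⌈K * S⌉₊ : ℕ) : ℝ) with hMdef
  have hlogM : Real.log M ≤ Real.log (4 * W * K) + 2 * ℓ := by
    calc Real.log M ≤ Real.log (4 * W * K * S) := Real.log_le_log (by linarith) hM
      _ = Real.log (4 * W * K) + Real.log S := Real.log_mul (by positivity) (by positivity)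
      _ ≤ Real.log (4 * W * K) + Real.log ((d + L) ^ 2) := by
          gcongr
      _ = Real.log (4 * W * K) + 2 * ℓ := by rw [Real.log_pow, hℓ]; norm_num
  have hlog4 : Real.log 4 ≤ 2 := by
    have : Real.log 4 = 2 * Real.log 2 := by
      rw [show (4 : ℝ) = 2 ^ 2 by norm_num, Real.log_pow]; norm_num
    rw [this]
    have := Real.log_two_lt_d9
    linarith
  have hlogWK0 : 0 ≤ Real.log (4 * W * K) := Real.log_nonneg (by nlinarith)
  have e1 : Real.log (4 * H * M ^ d) = Real.log 4 + L + d * Real.log M := by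
    rw [Real.log_mul (by positivity) (by positivity), Real.log_mul (by positivity) (by positivity), Real.log_pow]
  rw [e1]
  have e2 : (d : ℝ) * Real.log M ≤ d * (Real.log (4 * W * K) + 2 * ℓ) := by gcongr
  have e3 : (d : ℝ) * Real.log (4 * W * K) ≤ S * Real.log (4 * W * K) := by
    gcongr; linarith
  have e4 : Real.log 4 + L + d * Real.log M ≤ (4 + Real.log (4 * W * K)) * S := by
    have : 2 * (d * ℓ) = 2 * (S - L) := by rw [hSe]; ring
    nlinarith
  have e5 : 4 + Real.log (4 * W * K) ≤ η / 16 * K := by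
    have : 16 / η * (4 + Real.log (4 * W * K)) ≤ K := hK2
    rw [div_mul_eq_mul_div, div_le_iff₀ hη] at this
    linarith
  calc Real.log 4 + L + d * Real.log M ≤ (4 + Real.log (4 * W * K)) * S := e4
    _ ≤ (η / 16 * K) * S := by gcongr
    _ = η / 16 * (K * S) := by ring
    _ ≤ η / 16 * ((⌈K * S⌉₊ : ℕ) : ℝ) := by
        gcongr; exact Nat.le_ceil _

end Pool.Agent.Helper19.PV
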