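import Pool.Agent.Helper92.PV.St

/-! # Project PV, module PRM: distinct primes in dyadic ranges (Bertrand) -/

set_option autoImplicit false

namespace Pool.Agent.Helper19.PV

open Pool.Agent.Helper92.PV Pool.Agent.Helper92.PU Pool.Agent.Helper92.PW

theorem hPRM : StPRM := by
  intro r Y hY
  have hn1 : 1 ≤ ⌈Y⌉₊ := Nat.one_le_ceil_iff.2 (by linarith)
  have hn2 : ((⌈Y⌉₊ : ℕ) : ℝ) ≤ 2 * Y := by
    have := Nat.ceil_lt_add_one (show (0 : ℝ) ≤ Y by linarith)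
    linarith
  have hn3 : Y ≤ ((⌈Y⌉₊ : ℕ) : ℝ) := Nat.le_ceil Y
  have key : ∀ i : ℕ, ∃ p : ℕ, p.Prime ∧ 2 ^ i * ⌈Y⌉₊ < p ∧ p ≤ 2 * (2 ^ i * ⌈Y⌉₊) := by
    intro i
    exact Nat.exists_prime_lt_and_le_two_mul _ (by positivity)
  choose p hp1 hp2 hp3 using key
  have hlt : ∀ i j : ℕ, i < j → p i < p j := by
    intro i j hij
    calc p i ≤ 2 * (2 ^ i * ⌈Y⌉₊) := hp3 i
      _ = 2 ^ (i + 1) * ⌈Y⌉₊ := by ring
      _ ≤ 2 ^ j * ⌈Y⌉₊ := Nat.mul_le_mul_right _ (Nat.pow_le_pow_right (by norm_num) hij)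
      _ < p j := hp2 j
  refine ⟨fun i => p i, ?_, ?_⟩
  · intro i j hij
    have hij' : p i = p j := hij
    rcases lt_trichotomy (i : ℕ) (j : ℕ) with h | h | h
    · exact absurd (hlt _ _ h) (by omega)
    · exact Fin.ext h
    · exact absurd (hlt _ _ h) (by omega)
  · intro i
    refine ⟨hp1 i, ?_, ?_⟩
    · have h1 : ((2 ^ (i : ℕ) * ⌈Y⌉₊ : ℕ) : ℝ) < (p i : ℝ) := by exact_mod_cast hp2 i
      have h2 : ((⌈Y⌉₊ : ℕ) : ℝ) ≤ ((2 ^ (i : ℕ) * ⌈Y⌉₊ : ℕ) : ℝ) := by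
        exact_mod_cast Nat.le_mul_of_pos_left _ (by positivity)
      linarith
    · have h1 : ((p i : ℕ) : ℝ) ≤ ((2 * (2 ^ (i : ℕ) * ⌈Y⌉₊) : ℕ) : ℝ) := by exact_mod_cast hp3 i
      have h2 : ((2 * (2 ^ (i : ℕ) * ⌈Y⌉₊) : ℕ) : ℝ) = 2 ^ ((i : ℕ) + 1) * ((⌈Y⌉₊ : ℕ) : ℝ) := by
        push_cast; ring
      have h3 : (2 : ℝ) ^ ((i : ℕ) + 1) ≤ 2 ^ r := pow_le_pow_right₀ (by norm_num) i.2
      have h4 : (0 : ℝ) < 2 ^ ((i : ℕ) + 1) := by positivity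
      calc ((p i : ℕ) : ℝ) ≤ 2 ^ ((i : ℕ) + 1) * ((⌈Y⌉₊ : ℕ) : ℝ) := by rw [← h2]; exact h1
        _ ≤ 2 ^ r * (2 * Y) := mul_le_mul h3 hn2 (by positivity) (by positivity)
        _ = 2 ^ (r + 1) * Y := by ring

end Pool.Agent.Helper19.PV
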